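import Pool.Agent.Lib.MP_df1cff_co.Proof

namespace Pool.Agent.Results.MP_df1cff_co.EvilNotNormal

open Pool.Agent.Lib.MP_df1cff_co

/-- There is a closed set `A` of dicotic games containing `*` with the evil twin property such that
no evil kernel `K` of `A` makes `(A, K)` evilly normal. -/
theorem result :
    ∃ A : Set Game, (∀ G ∈ A, IsDicotic G) ∧ IsClosedSet A ∧ Game.star ∈ A ∧
      (∃ K : Set Game, IsEvilKernel A K) ∧
      ∀ K : Set Game, IsEvilKernel A K →
        ∃ G ∈ A, ∃ H ∈ A, ¬ (G.sum H ∉ K ↔ (G ∉ K ∧ H ∉ K)) :=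
  ⟨exA, exA_dicotic, exA_closed, exA_star, ⟨_, exA_kernel⟩, fun _ hK => no_normal hK⟩

end Pool.Agent.Results.MP_df1cff_co.EvilNotNormal
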